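import Pool.Agent.Lib.MP_321260_co.Graph70

set_option autoImplicit false

/-!
MP_321260_co, Q1, negative answer as a statement of our own: a Hamiltonian graph with 70 vertices
and minimum degree at least 3 in which, for every edge, deleting the edge or contracting the edge
destroys all Hamilton cycles. It has, moreover, only one Hamilton cycle.
-/

namespace Pool.Agent.Results.MP_321260_co.NoCommonEdge

open Pool.Agent.Lib.MP_321260_co

/-- `G` contains a cycle through all of its vertices. -/
def HasHamiltonCycle {V : Type*} [DecidableEq V] (G : SimpleGraph V) : Prop :=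
  ∃ (a : V) (p : G.Walk a a), p.IsHamiltonianCycle

/-- Adjacency in the contraction of the edge `u v` of `G`; the new vertex is `none`. -/
def contractAdj {V : Type*} (G : SimpleGraph V) (u v : V) :
    Option {x : V // x ≠ u ∧ x ≠ v} → Option {x : V // x ≠ u ∧ x ≠ v} → Prop
  | none, none => False
  | none, some x => G.Adj u x ∨ G.Adj v x
  | some x, none => G.Adj u x ∨ G.Adj v x
  | some x, some y => G.Adj x y

/-- The graph obtained from `G` by contracting the edge `u v`: the vertices `u` and `v` are
replaced by the new vertex `none`, which is adjacent to all other vertices adjacent to `u` or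
to `v`. -/
def contract {V : Type*} (G : SimpleGraph V) (u v : V) :
    SimpleGraph (Option {x : V // x ≠ u ∧ x ≠ v}) where
  Adj := contractAdj G u v
  symm := ⟨by
    rintro (_ | x) (_ | y) h
    · exact h
    · exact h
    · exact h
    · exact SimpleGraph.Adj.symm (G := G) h⟩
  loopless := ⟨by
    rintro (_ | x) h
    · exact h
    · exact G.irrefl h⟩

/-- From a Hamilton cycle of the contraction to one of the contraction written on the vertices
different from `v`. -/
theorem transfer {V : Type*} [Fintype V] [DecidableEq V] (G : SimpleGraph V) (u v : V)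
    (huv : u ≠ v) (h : HasHamiltonCycle (contract G u v)) :
    (SimpleGraph.fromRel (fun a b : {x : V // x ≠ v} =>
      G.Adj a.1 b.1 ∨ (a.1 = u ∧ G.Adj v b.1))).IsHamiltonian := by
  obtain ⟨a, p, hp⟩ := h
  let g : Option {x : V // x ≠ u ∧ x ≠ v} → {x : V // x ≠ v} := fun o =>
    match o with
    | none => ⟨u, huv⟩
    | some x => ⟨x.1, x.2.2⟩
  have hg : Function.Bijective g := by
    constructor
    · rintro (_ | x) (_ | y) hxy
      · rfl
      · exact absurd (congrArg Subtype.val hxy).symm y.2.1
      · exact absurd (congrArg Subtype.val hxy) x.2.1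
      · have h1 : x.1 = y.1 := by
          have h2 : (g (some x)).1 = (g (some y)).1 := by rw [hxy]
          exact h2
        rw [Subtype.ext h1]
    · rintro ⟨y, hy⟩
      by_cases hyu : y = u
      · subst hyu
        exact ⟨none, rfl⟩
      · exact ⟨some ⟨y, hyu, hy⟩, rfl⟩
  have hadj : ∀ o o', (contract G u v).Adj o o' →
      (SimpleGraph.fromRel (fun a b : {x : V // x ≠ v} =>
        G.Adj a.1 b.1 ∨ (a.1 = u ∧ G.Adj v b.1))).Adj (g o) (g o') := by
    intro o o' hoo
    rw [SimpleGraph.fromRel_adj]
    refine ⟨fun e => (contract G u v).ne_of_adj hoo (hg.1 e), ?_⟩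
    rcases o with _ | x <;> rcases o' with _ | y
    · exact absurd hoo ((contract G u v).irrefl)
    · rcases hoo with h1 | h1
      · exact Or.inl (Or.inl h1)
      · exact Or.inl (Or.inr ⟨rfl, h1⟩)
    · rcases hoo with h1 | h1
      · exact Or.inr (Or.inl h1)
      · exact Or.inr (Or.inr ⟨rfl, h1⟩)
    · exact Or.inl (Or.inl hoo)
  let f : (contract G u v) →g (SimpleGraph.fromRel (fun a b : {x : V // x ≠ v} =>
      G.Adj a.1 b.1 ∨ (a.1 = u ∧ G.Adj v b.1))) := ⟨g, fun {o o'} h => hadj o o' h⟩
  exact fun _ => ⟨_, p.map f, hp.map hg⟩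

/-- A Hamilton cycle as a relation. -/
theorem cycRel_walk {α : Type*} [Fintype α] [DecidableEq α] {H : SimpleGraph α} {a₀ : α}
    (p : H.Walk a₀ a₀) (hp : p.IsHamiltonianCycle) :
    CycRel (fun a b => p.toSubgraph.Adj a b) (fun _ => True) := by
  refine ⟨?_, ?_, ?_, ?_⟩
  · intro a b h
    exact h.symm
  · intro a _
    have h2 := hp.isCycle.ncard_neighborSet_toSubgraph_eq_two (hp.mem_support a)
    obtain ⟨b, c, hbc, hs⟩ := Set.ncard_eq_two.1 h2
    refine ⟨b, c, hbc, fun d => ?_⟩
    have : d ∈ p.toSubgraph.neighborSet a ↔ d ∈ ({b, c} : Set α) := by rw [hs]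
    simpa using this
  · intro a h
    exact absurd trivial h
  · intro U hU a b _ _
    have key : ∀ i, i ≤ p.length → (U (p.getVert i) ↔ U a₀) := by
      intro i
      induction i with
      | zero => intro _; simp
      | succ i ih =>
        intro hi
        have h1 := p.toSubgraph_adj_getVert (show i < p.length by omega)
        exact (hU _ _ h1).symm.trans (ih (by omega))
    have key2 : ∀ c, U c ↔ U a₀ := by
      intro c
      obtain ⟨i, hi, hle⟩ := SimpleGraph.Walk.mem_support_iff_exists_getVert.1 (hp.mem_support c)
      rw [← hi]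
      exact key i hle
    exact (key2 a).trans (key2 b).symm

/-- The edges of a Hamilton cycle of the graph with 70 vertices. -/
theorem edges_walk {a : Fin 70} (p : G70.Walk a a) (hp : p.IsHamiltonianCycle)
    (b c : Fin 70) : s(b, c) ∈ p.edges ↔ (code b.1 c.1 ∈ E70 ∧ code b.1 c.1 ∈ C70) := by
  rw [← unique_cycle (cycRel_walk p hp) (fun _ _ h => p.toSubgraph.adj_sub h)
    (fun _ _ _ => Or.inl trivial) b c]
  exact (SimpleGraph.Walk.mem_edges_toSubgraph p).symm

/-- There is a graph with 70 vertices that has a Hamilton cycle, in which every vertex has at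
least three neighbours, which has only one Hamilton cycle (any two have the same edges), and such
that for every edge `u v` the graph with the edge deleted or the graph with the edge contracted
has no Hamilton cycle. -/
theorem result : ∃ G : SimpleGraph (Fin 70),
    HasHamiltonCycle G ∧ (∀ x, 3 ≤ (G.neighborSet x).ncard) ∧
    (∀ (a b : Fin 70) (p : G.Walk a a) (q : G.Walk b b),
      p.IsHamiltonianCycle → q.IsHamiltonianCycle → ∀ e, e ∈ p.edges ↔ e ∈ q.edges) ∧
    ∀ u v, G.Adj u v →
      ¬ HasHamiltonCycle (G.deleteEdges {s(u, v)}) ∨ ¬ HasHamiltonCycle (contract G u v) := by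
  refine ⟨G70, ?_, ?_, ?_, ?_⟩
  · exact ham70 (by rw [Fintype.card_fin]; decide)
  · intro x
    have h1 := degree_ge x
    rw [← SimpleGraph.card_neighborSet_eq_degree] at h1
    rwa [Set.ncard_eq_toFinset_card', Set.toFinset_card]
  · intro a b p q hp hq e
    induction e using Sym2.ind with
    | _ c d => rw [edges_walk p hp, edges_walk q hq]
  · intro u v huv
    by_contra hno
    push Not at hno
    obtain ⟨hdel, hcon⟩ := hno
    -- the Hamilton cycle of the graph with the edge deleted is the designated one
    obtain ⟨R, hR, hadj⟩ := exists_cycRel (G70.deleteEdges {s(u, v)})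
      (by rw [Fintype.card_fin]; decide) (fun _ => hdel)
    have hadj' : ∀ a b, R a b → G70.Adj a b := fun a b h => by
      have := hadj a b h
      rw [SimpleGraph.deleteEdges_adj] at this
      exact this.1
    have hRuv : ¬ R u v := fun h => by
      have := hadj u v h
      rw [SimpleGraph.deleteEdges_adj] at this
      exact this.2 rfl
    have h1 := unique_cycle hR hadj' (fun _ _ _ => Or.inl trivial) u v
    -- the cycle obtained from the contraction is the designated one, too
    have hcard : Fintype.card {x : Fin 70 // x ≠ v} ≠ 1 := by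
      rw [Fintype.card_subtype_compl, Fintype.card_fin, Fintype.card_subtype_eq]
      decide
    obtain ⟨R', vis, hR', hadj'', hone, hlast⟩ := exists_cycRel_contract G70 u v huv hcard
      (transfer G70 u v huv.ne hcon)
    have h2 := unique_cycle hR' hadj'' hone u v
    rcases hlast with ⟨a, ha⟩ | h
    · exact ha (vis_all hR' hadj'' hone a)
    · exact hRuv (h1.2 (h2.1 h))

end Pool.Agent.Results.MP_321260_co.NoCommonEdge
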